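import Pool.Agent.Helper88.GU.St

/-!
Module XE of project GU, second hand-in (MP_b1e6de_al): infinity, `(F) + (c') = A`.
-/

set_option autoImplicit false

namespace Pool.Agent.Helper60.GU2

open Polynomial
open Pool.Agent.Helper91.GU Pool.Agent.Helper88.GU

universe u

theorem hXE (hXD : StXD.{u}) : Pool.Agent.Helper88.GU.StXE.{u} := by
  intro R A _ _ _ _ _ G m x e hS s₀ Nh s hH hN v₀ c' F hU hf hht
  by_contra hne
  obtain ⟨P, hPm, hP⟩ := Ideal.exists_le_maximal _ hne
  have hPp : P.IsPrime := hPm.isPrime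
  have hF : ∀ j, F j ∈ P := fun j =>
    hP (Ideal.mem_sup_left (Ideal.subset_span ⟨j, rfl⟩))
  have hc : idl c' ≤ P := le_trans le_sup_right hP
  have hcj : ∀ j, c' j ∈ P := fun j => hc (Ideal.subset_span ⟨j, rfl⟩)
  have h1 : (1 : A) ∉ P := fun h => hPp.ne_top ((Ideal.eq_top_iff_one P).2 h)
  have hv₀ : v₀ ∉ P := by
    intro hv
    obtain ⟨y, hy⟩ := hU
    apply h1
    rw [← hy]
    unfold dotProduct
    refine P.sum_mem fun i _ => P.mul_mem_right _ ?_
    rcases i with i | i
    · exact hv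
    · exact hcj i
  have hxl : ∃ l, x l ∉ P := by
    by_contra hcon
    push Not at hcon
    obtain ⟨f, hfc, hf1⟩ := hf
    have h2 := (hXD R A G m x e hS).2.1 f
    have h3 : Ideal.span (Set.range x) ≤ P := by
      rw [Ideal.span_le]
      rintro _ ⟨l, rfl⟩
      exact hcon l
    have h4 := h3 h2
    rw [hf1] at h4
    apply h1
    have h5 := P.sub_mem (hc hfc) h4
    rwa [sub_sub_cancel] at h5
  obtain ⟨h6, h7⟩ := hht P hPp hv₀ hxl hF hcj
  by_cases hs : algebraMap R A s₀ ∈ P
  · have h8 := (h7 hs).trans (hH.le P hPp)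
    rw [Nat.cast_le] at h8
    omega
  · have h8 := lt_of_le_of_lt h6 (hH.lt P hPp hs)
    rw [Nat.cast_lt] at h8
    omega

end Pool.Agent.Helper60.GU2
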